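import Pool.Agent.H45.SBM

open Filter Topology Finset Pool.Agent.H45.SBM

namespace Pool.Agent.Results.MP_9b1654_pr.MLFails

noncomputable def π₀ : Fin 3 → ℝ := ![9 / 10, 1 / 100, 9 / 100]
noncomputable def M₀ : Matrix (Fin 3) (Fin 3) ℝ := Matrix.diagonal ![1 / 200, 1 / 200, 10000]

lemma hπ (i) : 0 < π₀ i := by fin_cases i <;> simp [π₀]
lemma h1 : ∑ i, π₀ i = 1 := by simp [π₀, Fin.sum_univ_three]; norm_num
lemma hM (i j) : 0 ≤ M₀ i j := by fin_cases i <;> fin_cases j <;> simp [M₀]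
lemma hd (i j) (h : i ≠ j) : M₀ i j = 0 := Matrix.diagonal_apply_ne _ h
lemma hsup : ⨆ i, π₀ i = 9 / 10 :=
  le_antisymm (ciSup_le fun i => by fin_cases i <;> simp [π₀] <;> norm_num)
    (le_ciSup_of_le (Set.finite_range _).bddAbove 0 (by simp [π₀]))

lemma lim (c : ℝ) (hc : 0 < c) : Tendsto (fun n : ℕ => Real.exp (-(c * n))) atTop (𝓝 0) :=
  Real.tendsto_exp_neg_atTop_nhds_zero.comp (tendsto_natCast_atTop_atTop.const_mul_atTop hc)

lemma small {f : ℕ → ℝ} {c : ℝ} (hc : 0 < c) (h0 : ∀ n, 0 ≤ f n)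
    (h : ∀ᶠ n : ℕ in atTop, f n ≤ Real.exp (-(c * n))) : Tendsto f atTop (𝓝 0) :=
  squeeze_zero' (Eventually.of_forall h0) h (lim c hc)

lemma tA : Tendsto (fun n : ℕ => prob π₀ M₀ n fun σ G => (n / 100 : ℝ) ≤ (inner 0 σ G).card)
    atTop (𝓝 0) :=
  small (c := 1 / 200) (by norm_num) (fun _ => prob_nonneg (fun i => (hπ i).le) hM _)
    (Eventually.of_forall fun n => (inner_le (fun i => (hπ i).le) h1 hM 0 _).trans
      (Real.exp_le_exp.2 (by simp [M₀]; linarith)))

lemma tN : Tendsto (fun n : ℕ => prob π₀ M₀ n fun σ _ =>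
    (3 * n / 100 : ℝ) ≤ (univ.filter fun v => σ v = 1).card) atTop (𝓝 0) :=
  small (c := 1 / 100) (by norm_num) (fun _ => prob_nonneg (fun i => (hπ i).le) hM _)
    (Eventually.of_forall fun n => (label_le (fun i => (hπ i).le) h1 hM (· = 1) _).trans
      (Real.exp_le_exp.2 (by simp [π₀]; linarith)))

lemma tN' : Tendsto (fun n : ℕ => prob π₀ M₀ n fun σ _ =>
    (n / 4 : ℝ) ≤ (univ.filter fun v => σ v ≠ 0).card) atTop (𝓝 0) :=
  small (c := 1 / 20) (by norm_num) (fun _ => prob_nonneg (fun i => (hπ i).le) hM _)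
    (Eventually.of_forall fun n => (label_le (fun i => (hπ i).le) h1 hM (· ≠ 0) _).trans
      (Real.exp_le_exp.2 (by simp [π₀, Fin.sum_univ_three]; linarith)))

lemma tB : Tendsto (fun n : ℕ => prob π₀ M₀ n fun σ G =>
    n / 50 + 1 ≤ (univ.filter fun v => σ v = 2 ∧ iso G v).card) atTop (𝓝 0) := by
  refine small (c := 1 / 10) (by norm_num) (fun _ => prob_nonneg (fun i => (hπ i).le) hM _) ?_
  filter_upwards [eventually_ge_atTop 10000] with n hn
  refine (iso_le (fun i => (hπ i).le) h1 hM 2 _).trans ?_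
  have hn' : (10000 : ℝ) ≤ n := by exact_mod_cast hn
  have hq : q M₀ n 2 2 = 10000 / n := by
    simp only [q, M₀, Matrix.diagonal_apply_eq]
    exact min_eq_right (by simpa [div_le_one (show (0 : ℝ) < n by linarith)] using hn')
  have hm : (n / 50 : ℝ) ≤ ((n / 50 + 1 : ℕ) : ℝ) := by
    have : n ≤ 50 * (n / 50 + 1) := by omega
    have : (n : ℝ) ≤ 50 * ((n / 50 + 1 : ℕ) : ℝ) := by exact_mod_cast this
    linarith
  have h2 : (2 : ℝ) ≤ Real.exp (9 / 10) := by
    have := Real.add_one_le_exp (9 / 20 : ℝ)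
    rw [show (9 / 10 : ℝ) = 9 / 20 + 9 / 20 by norm_num, Real.exp_add]; nlinarith
  calc (2 : ℝ) ^ n * (1 - q M₀ n 2 2) ^ (n / 50 + 1).choose 2
      ≤ Real.exp (9 / 10) ^ n * Real.exp (-(10000 / n)) ^ (n / 50 + 1).choose 2 := by
        gcongr
        · exact pow_nonneg (sub_nonneg.2 (q_le_one _ _)) _
        · exact sub_nonneg.2 (q_le_one _ _)
        · rw [hq]; exact Real.one_sub_le_exp_neg _
    _ ≤ _ := by
        rw [← Real.exp_nat_mul, ← Real.exp_nat_mul, ← Real.exp_add, Real.exp_le_exp,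
          Nat.cast_choose_two]
        set m : ℝ := ((n / 50 + 1 : ℕ) : ℝ)
        have h3 : (n : ℝ) * n ≤ m * (m - 1) / 2 * 10000 := by nlinarith
        have h4 : (n : ℝ) ≤ m * (m - 1) / 2 * (10000 / n) := by
          rw [← mul_div_assoc, le_div_iff₀ (by linarith)]; exact h3
        linarith

lemma good : Achieves π₀ M₀ (fun _ G v => if iso G v then 0 else 2) := by
  refine ⟨1 / 100, by norm_num, ?_⟩
  have h0 := (tA.add tN).add tB
  rw [add_zero, add_zero] at h0
  have hc : Tendsto (fun n : ℕ => prob π₀ M₀ n fun σ G =>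
      ¬ ((⨆ i, π₀ i) + 1 / 100 ≤ ov (fun v => if iso G v then 0 else 2) σ)) atTop (𝓝 0) := by
    refine squeeze_zero' (Eventually.of_forall fun _ => prob_nonneg (fun i => (hπ i).le) hM _)
      ?_ h0
    filter_upwards [eventually_ge_atTop 1] with n hn
    refine prob_le_three (fun i => (hπ i).le) hM fun σ G hl h => ?_
    by_contra hcon
    push Not at hcon
    obtain ⟨hA, hN, hB⟩ := hcon
    refine h ?_
    have hn' : (0 : ℝ) < n := by exact_mod_cast hn
    rw [hsup]
    refine le_ciSup_of_le (Set.finite_range _).bddAbove 1 ?_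
    rw [le_div_iff₀ hn']
    have hA' := noniso_le hd 0 hl
    have hsub : (univ : Finset (Fin n)) ⊆
        (univ.filter fun v => (1 : Equiv.Perm (Fin 3)) (if iso G v then 0 else 2) = σ v) ∪
        (univ.filter fun v => σ v = 0 ∧ ¬ iso G v) ∪ (univ.filter fun v => σ v = 1) ∪
        (univ.filter fun v => σ v = 2 ∧ iso G v) := by
      intro v _
      simp only [mem_union, mem_filter, mem_univ, true_and, Equiv.Perm.one_apply]
      generalize σ v = i
      by_cases hv : iso G v <;> fin_cases i <;> simp [hv]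
    have hcard := (card_le_card hsub).trans ((card_union_le _ _).trans (add_le_add_left
      ((card_union_le _ _).trans (add_le_add_left (card_union_le _ _) _)) _))
    rw [card_univ, Fintype.card_fin] at hcard
    have hB' : 50 * (univ.filter fun v => σ v = 2 ∧ iso G v).card ≤ n := by omega
    have e1 := (Nat.cast_le (α := ℝ)).2 hcard
    have e2 := (Nat.cast_le (α := ℝ)).2 hA'
    have e3 := (Nat.cast_le (α := ℝ)).2 hB'
    rw [Nat.cast_add, Nat.cast_add, Nat.cast_add] at e1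
    push_cast at e2 e3
    linarith
  have := hc.const_sub 1
  rw [sub_zero] at this
  exact this.congr fun n => by rw [sub_eq_iff_eq_add, prob_add_compl h1]

lemma bad (est) (h : IsML M₀ est) :
    Tendsto (fun n : ℕ => prob π₀ M₀ n fun σ G => 4 / 5 ≤ ov (est n G) σ) atTop (𝓝 0) := by
  have h0 := (tA.add tN').add tN'
  rw [add_zero, add_zero] at h0
  refine squeeze_zero' (Eventually.of_forall fun _ => prob_nonneg (fun i => (hπ i).le) hM _) ?_ h0
  filter_upwards [eventually_ge_atTop 100] with n hn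
  refine prob_le_three (fun i => (hπ i).le) hM fun σ G hl hov => ?_
  by_contra hcon
  push Not at hcon
  obtain ⟨hA, hN, -⟩ := hcon
  have hn' : (100 : ℝ) ≤ n := by exact_mod_cast hn
  have ha : (1 / 200 : ℝ) / n < 1 := by rw [div_lt_one (by linarith)]; linarith
  have hq : ∀ j : Fin 3, j ≠ 2 → q M₀ n j j = 1 / 200 / n := fun j hj => by
    have : M₀ j j = 1 / 200 := by fin_cases j <;> simp_all [M₀]
    rw [q, this, min_eq_right ha.le]
  have hq' : ∀ i : Fin 3, 1 / 200 / (n : ℝ) ≤ q M₀ n i i := fun i => by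
    refine le_min ha.le (div_le_div_of_nonneg_right ?_ (by linarith))
    fin_cases i <;> simp [M₀]
    norm_num
  have hbal : ∀ i, 2 * (univ.filter fun v => iso G v ∧ est n G v = i).card ≤ n + 1 := fun i => by
    obtain ⟨j, hj, hj2⟩ : ∃ j : Fin 3, j ≠ i ∧ j ≠ 2 := by revert i; decide
    refine balance hd (h n G) (hl.trans_le (h n G σ)) hj ?_ ?_ ?_ <;> rw [hq j hj2]
    exacts [by positivity, ha, hq' i]
  refine absurd hov (not_le.2 (lt_of_le_of_lt (ciSup_le fun τ => ?_) (show (79 / 100 : ℝ) < _ by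
    norm_num)))
  rw [div_le_iff₀ (by linarith)]
  have hA' := noniso_le hd 0 hl
  have hsub : (univ.filter fun v => τ (est n G v) = σ v) ⊆
      (univ.filter fun v => σ v ≠ 0) ∪ (univ.filter fun v => σ v = 0 ∧ ¬ iso G v) ∪
      (univ.filter fun v => iso G v ∧ est n G v = τ.symm 0) := by
    intro v hv
    have hv := (mem_filter.1 hv).2
    simp only [mem_union, mem_filter, mem_univ, true_and, Equiv.eq_symm_apply, hv]
    by_cases h1 : σ v = 0 <;> by_cases h2 : iso G v <;> simp [h1, h2]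
  have hcard := (card_le_card hsub).trans ((card_union_le _ _).trans
    (add_le_add_left (card_union_le _ _) _))
  have e1 := (Nat.cast_le (α := ℝ)).2 hcard
  have e2 := (Nat.cast_le (α := ℝ)).2 hA'
  have e3 := (Nat.cast_le (α := ℝ)).2 (hbal (τ.symm 0))
  push_cast at e1 e2 e3
  linarith

theorem result : ∃ k ≥ 2, ∃ (π : Fin k → ℝ) (M : Matrix (Fin k) (Fin k) ℝ),
    (∀ i, 0 < π i) ∧ ∑ i, π i = 1 ∧ M.IsSymm ∧ (∀ i j, 0 ≤ M i j) ∧
    (∃ est, Achieves π M est) ∧ (∃ est, IsML M est) ∧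
    ∀ est, IsML M est → ¬ Achieves π M est := by
  refine ⟨3, by norm_num, π₀, M₀, hπ, h1, Matrix.isSymm_diagonal _, hM, ⟨_, good⟩, ?_, ?_⟩
  · choose f hf using fun n (G : Graph n) => Finite.exists_max fun s => lik M₀ s G
    exact ⟨f, hf⟩
  · rintro est h ⟨ε, hε, ht⟩
    have hb := bad est h
    have h3 := (hb.add hb).add hb
    have : (1 : ℝ) ≤ 0 + 0 + 0 := le_of_tendsto_of_tendsto' ht h3 fun n =>
      prob_le_three (fun i => (hπ i).le) hM fun σ G _ h => Or.inl (by rw [hsup] at h; linarith)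
    norm_num at this

end Pool.Agent.Results.MP_9b1654_pr.MLFails
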